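import Pool.Agent.H97.LAY.Stmts

/-!
# Row MRG of the board `lay`
-/

set_option autoImplicit false

namespace Pool.LAY

open Finset

lemma mrg_choose (l s t : ℕ) (hl : 1 ≤ l) : (s + t).choose l = s.choose l + t.choose l + dl l s t := by
  have h : s.choose l + t.choose l ≤ (s + t).choose l := by
    rw [Nat.add_choose_eq]
    have h1 : (0, l) ∈ Finset.HasAntidiagonal.antidiagonal l := by simp
    have h2 : (l, 0) ∈ Finset.HasAntidiagonal.antidiagonal l := by simp
    have hne : ((0, l) : ℕ × ℕ) ≠ (l, 0) := by
      intro h
      have := congrArg Prod.fst h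
      simp at this
      omega
    have h3 : ({(l, 0), (0, l)} : Finset (ℕ × ℕ)) ⊆ Finset.HasAntidiagonal.antidiagonal l := by
      intro x hx
      simp only [Finset.mem_insert, Finset.mem_singleton] at hx
      rcases hx with rfl | rfl
      · exact h2
      · exact h1
    have h4 := Finset.sum_le_sum_of_subset (f := fun ij : ℕ × ℕ => s.choose ij.1 * t.choose ij.2) h3
    rw [Finset.sum_pair hne.symm] at h4
    simpa using h4
  unfold dl
  omega

/-- the part of `D` of the list `t :: post` in which `t` is used by the entry `j` -/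
def mrgC (ls post : List ℕ) (t j : ℕ) : ℕ :=
  if j < ls.length then t.choose (ls.getD j 0) * D (ls.drop (j + 1)) post else 0

lemma mrg_drop (ls post : List ℕ) (x j : ℕ) :
    D (ls.drop j) (x :: post) = mrgC ls post x j + D (ls.drop j) post := by
  unfold mrgC
  split_ifs with h
  · rw [List.drop_eq_getElem_cons h]
    have e : ls.getD j 0 = ls[j] := by
      rw [List.getD_eq_getElem?_getD, List.getElem?_eq_getElem h]
      rfl
    rw [e]
    rfl
  · have e : ls.drop j = [] := List.drop_eq_nil_of_le (by omega)
    rw [e]
    simp [D]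

theorem MRG (h1 : APPStmt) : MRGStmt := by
  intro ls pre post s t hls
  rw [h1, h1]
  rcases Nat.eq_zero_or_pos ls.length with h0 | h0
  · have : ls = [] := List.length_eq_zero_iff.mp h0
    subst this
    simp [loss, gain, D]
  obtain ⟨n, hn⟩ : ∃ n, ls.length = n + 1 := ⟨ls.length - 1, by omega⟩
  have hloss : loss ls pre post s t = ∑ i ∈ range (ls.length + 1),
      D (ls.take i) pre * (if i < ls.length then s.choose (ls.getD i 0) * mrgC ls post t (i + 1)
        else 0) := by
    unfold loss
    rw [hn, Nat.add_sub_cancel, Finset.sum_range_succ, Finset.sum_range_succ]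
    rw [if_neg (show ¬ (n + 1 < n + 1) by omega), if_pos (show n < n + 1 by omega)]
    have e1 : mrgC ls post t (n + 1) = 0 := by
      unfold mrgC
      rw [if_neg (by omega)]
    rw [e1, mul_zero, mul_zero, mul_zero, add_zero, add_zero]
    refine Finset.sum_congr rfl fun i hi => ?_
    have hi' := Finset.mem_range.mp hi
    rw [if_pos (by omega)]
    unfold mrgC
    rw [if_pos (by omega)]
    have e2 : i + 1 + 1 = i + 2 := rfl
    rw [e2]
    ring
  have hgain : gain ls pre post s t = ∑ i ∈ range (ls.length + 1),
      D (ls.take i) pre * (if i < ls.length then D (ls.drop (i + 1)) post * dl (ls.getD i 0) s t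
        else 0) := by
    unfold gain
    rw [Finset.sum_range_succ, if_neg (by omega), mul_zero, add_zero]
    refine Finset.sum_congr rfl fun i hi => ?_
    have hi' := Finset.mem_range.mp hi
    rw [if_pos hi']
    ring
  rw [hloss, hgain, ← Finset.sum_add_distrib, ← Finset.sum_add_distrib]
  refine Finset.sum_congr rfl fun i _ => ?_
  rw [← mul_add, ← mul_add]
  congr 1
  rw [mrg_drop ls post (s + t) i, mrg_drop ls (t :: post) s i, mrg_drop ls post t i]
  by_cases hi : i < ls.length
  · rw [if_pos hi, if_pos hi]
    have e1 : mrgC ls post (s + t) i = (s + t).choose (ls.getD i 0) * D (ls.drop (i + 1)) post := by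
      unfold mrgC
      rw [if_pos hi]
    have e2 : mrgC ls (t :: post) s i =
        s.choose (ls.getD i 0) * (mrgC ls post t (i + 1) + D (ls.drop (i + 1)) post) := by
      rw [← mrg_drop]
      unfold mrgC
      rw [if_pos hi]
    have e3 : mrgC ls post t i = t.choose (ls.getD i 0) * D (ls.drop (i + 1)) post := by
      unfold mrgC
      rw [if_pos hi]
    have hl : 1 ≤ ls.getD i 0 := by
      have e : ls.getD i 0 = ls[i] := by
        rw [List.getD_eq_getElem?_getD, List.getElem?_eq_getElem hi]
        rfl
      rw [e]
      exact hls _ (List.getElem_mem hi)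
    rw [e1, e2, e3, mrg_choose _ s t hl]
    ring
  · rw [if_neg hi, if_neg hi]
    unfold mrgC
    rw [if_neg hi, if_neg hi, if_neg hi]
    ring

end Pool.LAY
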