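import Pool.Agent.H97.LAY.Stmts

/-!
# Row PIV of the board `lay`
-/

set_option autoImplicit false

namespace Pool.LAY

open Finset

lemma piv_pw (x S a r : ℕ) (ha : 1 ≤ a) : x ^ a * S ^ r + S ^ (a + r) ≤ (x + S) ^ (a + r) := by
  have h1 : x ^ a + S ^ a ≤ (x + S) ^ a :=
    pow_add_pow_le (Nat.zero_le _) (Nat.zero_le _) (by omega)
  have h2 : S ^ r ≤ (x + S) ^ r := Nat.pow_le_pow_left (by omega) r
  calc x ^ a * S ^ r + S ^ (a + r) = (x ^ a + S ^ a) * S ^ r := by rw [pow_add, add_mul]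
    _ ≤ (x + S) ^ a * (x + S) ^ r := Nat.mul_le_mul h1 h2
    _ = _ := by rw [pow_add]

/-- the case `X = []` -/
lemma piv_nil (h1 : POWStmt) (h2 : SUBStmt) (bs Y : List ℕ) (l : ℕ) (hb : ∀ b ∈ bs, 1 ≤ b)
    (hl : 1 ≤ l) (M : List ℕ) : ∀ as : List ℕ, (∀ a ∈ as, 1 ≤ a) →
    D (as ++ l :: bs) (M ++ Y) ≤ (M ++ Y).sum ^ as.sum * D (l :: bs) Y
      + M.sum ^ l * (M ++ Y).sum ^ (as.sum + bs.sum) := by
  induction M with
  | nil =>
    intro as ha
    have k1 := h2 as (l :: bs) Y
    have k2 := h1 as Y ha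
    calc D (as ++ l :: bs) ([] ++ Y) ≤ D as Y * D (l :: bs) Y := k1
      _ ≤ Y.sum ^ as.sum * D (l :: bs) Y := Nat.mul_le_mul_right _ k2
      _ ≤ _ := Nat.le_add_right _ _
  | cons m M ih =>
    intro as ha
    obtain ⟨S, hS⟩ : ∃ S, S = (M ++ Y).sum := ⟨_, rfl⟩
    have hT : (m :: M ++ Y).sum = m + S := by rw [hS]; simp
    have hM : (m :: M).sum = m + M.sum := by simp
    rw [hT, hM]
    rw [← hS] at ih
    cases as with
    | nil =>
      have k1 := ih [] (by simp)
      have k2 := h1 bs (M ++ Y) hb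
      rw [← hS] at k2
      have k3 : D (l :: bs) (m :: (M ++ Y)) = m.choose l * D bs (M ++ Y) + D (l :: bs) (M ++ Y) :=
        rfl
      have k4 : m.choose l * D bs (M ++ Y) ≤ m ^ l * S ^ bs.sum :=
        Nat.mul_le_mul (Nat.choose_le_pow _ _) k2
      have k5 : m ^ l + M.sum ^ l ≤ (m + M.sum) ^ l :=
        pow_add_pow_le (Nat.zero_le _) (Nat.zero_le _) (by omega)
      have k6 : S ^ bs.sum ≤ (m + S) ^ bs.sum := Nat.pow_le_pow_left (by omega) _
      have k7 : (m ^ l + M.sum ^ l) * S ^ bs.sum ≤ (m + M.sum) ^ l * (m + S) ^ bs.sum :=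
        Nat.mul_le_mul k5 k6
      simp only [List.nil_append, List.sum_nil, pow_zero, one_mul, zero_add, List.cons_append]
        at k1 ⊢
      rw [k3]
      calc m.choose l * D bs (M ++ Y) + D (l :: bs) (M ++ Y)
          ≤ m ^ l * S ^ bs.sum + (D (l :: bs) Y + M.sum ^ l * S ^ bs.sum) := Nat.add_le_add k4 k1
        _ = D (l :: bs) Y + (m ^ l + M.sum ^ l) * S ^ bs.sum := by ring
        _ ≤ _ := Nat.add_le_add_left k7 _
    | cons a as =>
      have ha1 : 1 ≤ a := ha a (by simp)
      have ha' : ∀ x ∈ as, 1 ≤ x := fun x hx => ha x (by simp [hx])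
      have k1 := ih as ha'
      have k2 := ih (a :: as) ha
      have k3 : D (a :: (as ++ l :: bs)) (m :: (M ++ Y)) =
          m.choose a * D (as ++ l :: bs) (M ++ Y) + D (a :: (as ++ l :: bs)) (M ++ Y) := rfl
      have k4 := Nat.mul_le_mul (Nat.choose_le_pow m a) k1
      have p1 := piv_pw m S a as.sum ha1
      have p2 := piv_pw m S a (as.sum + bs.sum) ha1
      have q1 := Nat.mul_le_mul_right (D (l :: bs) Y) p1
      have q2 := Nat.mul_le_mul (Nat.pow_le_pow_left (Nat.le_add_left M.sum m) l) p2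
      simp only [List.cons_append, List.sum_cons] at k2 ⊢
      rw [k3]
      have e1 : a + as.sum + bs.sum = a + (as.sum + bs.sum) := by ring
      rw [e1] at k2 ⊢
      calc m.choose a * D (as ++ l :: bs) (M ++ Y) + D (a :: (as ++ l :: bs)) (M ++ Y)
          ≤ m ^ a * (S ^ as.sum * D (l :: bs) Y + M.sum ^ l * S ^ (as.sum + bs.sum)) +
            (S ^ (a + as.sum) * D (l :: bs) Y + M.sum ^ l * S ^ (a + (as.sum + bs.sum))) :=
            Nat.add_le_add k4 k2
        _ = (m ^ a * S ^ as.sum + S ^ (a + as.sum)) * D (l :: bs) Y +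
            M.sum ^ l * (m ^ a * S ^ (as.sum + bs.sum) + S ^ (a + (as.sum + bs.sum))) := by ring
        _ ≤ _ := Nat.add_le_add q1 q2

theorem PIV (h1 : POWStmt) (h2 : SUBStmt) : PIVStmt := by
  intro as bs X M Y l ha hb hl
  induction X generalizing as with
  | nil =>
    have k := piv_nil h1 h2 bs Y l hb hl M as ha
    have e : ([] ++ M ++ Y : List ℕ) = M ++ Y := by simp
    rw [e]
    refine k.trans ?_
    rw [add_assoc]
    exact Nat.le_add_left _ _
  | cons x X ih =>
    obtain ⟨S, hS⟩ : ∃ S, S = (X ++ M ++ Y).sum := ⟨_, rfl⟩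
    have hT : (x :: X ++ M ++ Y).sum = x + S := by rw [hS]; simp
    rw [hT]
    rw [← hS] at ih
    cases as with
    | nil =>
      have k1 := ih [] (by simp)
      have k2 := h1 bs (X ++ M ++ Y) hb
      rw [← hS] at k2
      have k3 : D (l :: bs) (x :: (X ++ M ++ Y)) =
          x.choose l * D bs (X ++ M ++ Y) + D (l :: bs) (X ++ M ++ Y) := rfl
      have k4 : x.choose l * D bs (X ++ M ++ Y) ≤ x.choose l * S ^ bs.sum :=
        Nat.mul_le_mul_left _ k2
      have k5 : D [l] (x :: X) = x.choose l + D [l] X := by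
        have : D [l] (x :: X) = x.choose l * D [] X + D [l] X := rfl
        rw [this]
        simp [D]
      have k6 : S ^ bs.sum ≤ (x + S) ^ bs.sum := Nat.pow_le_pow_left (by omega) _
      have k7 := Nat.mul_le_mul_left (x.choose l + D [l] X) k6
      have k8 := Nat.mul_le_mul_left (M.sum ^ l) k6
      simp only [List.nil_append, List.sum_nil, pow_zero, one_mul, zero_add, List.cons_append]
        at k1 ⊢
      rw [k3, k5]
      calc x.choose l * D bs (X ++ M ++ Y) + D (l :: bs) (X ++ M ++ Y)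
          ≤ x.choose l * S ^ bs.sum + (D [l] X * S ^ bs.sum + D (l :: bs) Y +
            M.sum ^ l * S ^ bs.sum) := Nat.add_le_add k4 k1
        _ = (x.choose l + D [l] X) * S ^ bs.sum + D (l :: bs) Y + M.sum ^ l * S ^ bs.sum := by ring
        _ ≤ _ := Nat.add_le_add (Nat.add_le_add k7 le_rfl) k8
    | cons a as =>
      have ha1 : 1 ≤ a := ha a (by simp)
      have ha' : ∀ x ∈ as, 1 ≤ x := fun x hx => ha x (by simp [hx])
      have k1 := ih as ha'
      have k2 := ih (a :: as) ha
      have k3 : D (a :: (as ++ l :: bs)) (x :: (X ++ M ++ Y)) =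
          x.choose a * D (as ++ l :: bs) (X ++ M ++ Y) + D (a :: (as ++ l :: bs)) (X ++ M ++ Y) :=
        rfl
      have k5 : D (a :: (as ++ [l])) (x :: X) =
          x.choose a * D (as ++ [l]) X + D (a :: (as ++ [l])) X := rfl
      have k4 := Nat.mul_le_mul_left (x.choose a) k1
      have k6 : S ^ bs.sum ≤ (x + S) ^ bs.sum := Nat.pow_le_pow_left (by omega) _
      have k7 := Nat.mul_le_mul_left (x.choose a * D (as ++ [l]) X + D (a :: (as ++ [l])) X) k6
      have p1 := piv_pw x S a as.sum ha1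
      have p2 := piv_pw x S a (as.sum + bs.sum) ha1
      have c1 := Nat.mul_le_mul_right (S ^ as.sum) (Nat.choose_le_pow x a)
      have c2 := Nat.mul_le_mul_right (S ^ (as.sum + bs.sum)) (Nat.choose_le_pow x a)
      have q1 := Nat.mul_le_mul_right (D (l :: bs) Y) ((Nat.add_le_add_right c1 _).trans p1)
      have q2 := Nat.mul_le_mul_left (M.sum ^ l) ((Nat.add_le_add_right c2 _).trans p2)
      simp only [List.cons_append, List.sum_cons] at k2 ⊢
      rw [k3, k5]
      have e1 : a + as.sum + bs.sum = a + (as.sum + bs.sum) := by ring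
      rw [e1] at k2 ⊢
      calc x.choose a * D (as ++ l :: bs) (X ++ M ++ Y) + D (a :: (as ++ l :: bs)) (X ++ M ++ Y)
          ≤ x.choose a * (D (as ++ [l]) X * S ^ bs.sum + S ^ as.sum * D (l :: bs) Y +
              M.sum ^ l * S ^ (as.sum + bs.sum)) +
            (D (a :: (as ++ [l])) X * S ^ bs.sum + S ^ (a + as.sum) * D (l :: bs) Y +
              M.sum ^ l * S ^ (a + (as.sum + bs.sum))) := Nat.add_le_add k4 k2
        _ = (x.choose a * D (as ++ [l]) X + D (a :: (as ++ [l])) X) * S ^ bs.sum +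
            (x.choose a * S ^ as.sum + S ^ (a + as.sum)) * D (l :: bs) Y +
            M.sum ^ l * (x.choose a * S ^ (as.sum + bs.sum) + S ^ (a + (as.sum + bs.sum))) := by
            ring
        _ ≤ _ := Nat.add_le_add (Nat.add_le_add k7 q1) q2

end Pool.LAY
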